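import Pool.Agent.V11230.TSyncF

/-!
# Recognising totally synchronizing digraphs is coNP-complete

The reduction is from exact bin packing with sizes in unary: given positive items `A` and bins `B`
of the same total size, take a prime `p > |B|` and a prime `P > p`, larger than twice every bin.
The vertices have the weights `A`, `P - b` for the bins `b`, and `P` (`p - |B|` times); every vertex
has `w(u)` parallel edges to every vertex `u`. So `w` is the stationary weight of Friedman, for
every colouring: in an automaton which is not synchronizing the vertices are partitioned into
`r ≥ 2` classes (the kernel of a word of minimal rank) of equal weight. As the total weight is `p P`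
and there is a vertex of weight `P`, there are `p` classes of weight `P`, and these give a packing.
Conversely, a packing gives such classes, and a colouring in which the letters permute the classes
cyclically.
-/

namespace Pool.Agent.Results.MP_00a7b4_lc.TotSyncCoNPComplete

open Pool.Agent.NPC Pool.Agent.NPC.V11230.TS

/-- **TOTSYNC is coNP-complete.** -/
theorem result : InCoNPP TotSync ∧ CoNPHardP TotSync := ⟨inCoNPP_TotSync, coNPHard_TotSync⟩

end Pool.Agent.Results.MP_00a7b4_lc.TotSyncCoNPComplete
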